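import Pool.Agent.H346.QC.Stm

set_option autoImplicit false

/-! Job MALN of helper346 (MP_172f05): malnormality modulo a small cancellation family of lines. -/

namespace Pool.Agent.H650.QC

open Pool.Agent.H17R2 Pool.Agent.H346.QC

section

variable {Γ V : Type} [Group Γ] [MulAction Γ V] (S : LF Γ V)

lemma trans_le_N {x : (ℤ → V) × ℤ} (hx : x ∈ S.fam) :
    (Pool.Agent.H17R2.trans x.1 x.2 : Subgroup Γ) ≤ S.N :=
  le_iSup (fun x : S.fam => (Pool.Agent.H17R2.trans x.1.1 x.1.2 : Subgroup Γ)) ⟨x, hx⟩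

lemma conj_mem_N (n : Γ) (hn : n ∈ S.N) : ∀ g : Γ, g * n * g⁻¹ ∈ S.N := by
  unfold LF.N at hn
  refine Subgroup.iSup_induction (C := fun n => ∀ g : Γ, g * n * g⁻¹ ∈ S.N) _ hn ?_ ?_ ?_
  · rintro x h ⟨m, hm⟩ g
    apply trans_le_N S (g • x).2
    refine ⟨m, fun k => ?_⟩
    rw [LF.smul_fst]
    simp only [mul_smul, inv_smul_smul, hm]
    rfl
  · intro g
    simp
  · intro a b ha hb g
    have e : g * (a * b) * g⁻¹ = (g * a * g⁻¹) * (g * b * g⁻¹) := by group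
    rw [e]
    exact S.N.mul_mem (ha g) (hb g)

/-- points on the segment from the base vertex -/
lemma pt (q : V) (j : ℕ) (hj : (j : ℤ) ≤ S.T.d S.v0 q) :
    ∃ m, S.T.d S.v0 m = S.T.d S.v0 q - j ∧ S.T.d m q = j := by
  induction j with
  | zero => exact ⟨q, by simp, by simp [S.T.d_self]⟩
  | succ j ih =>
    push_cast at hj
    obtain ⟨m, hm1, hm2⟩ := ih (by omega)
    obtain ⟨p, hp1, hp2⟩ := S.step (S.T.d S.v0 m - 1).toNat m (by omega)
    have h1 := S.T.tri S.v0 p m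
    have h2 := S.T.tri p m q
    have h3 := S.T.tri S.v0 p q
    refine ⟨p, ?_, ?_⟩ <;> push_cast <;> omega

/-- the uniqueness of the points of a segment -/
lemma seg_uniq (T : ZTree V) (v q A A' : V) (k : ℤ) (h1 : T.d v A = T.d v q - k) (h2 : T.d A q = k)
    (h3 : T.d v A' = T.d v q - k) (h4 : T.d A' q = k) : A = A' := by
  apply T.eq_of_zero
  have h := T.four A A' v q
  have h5 := T.d_comm A v
  have h6 := T.d_comm A' v
  have h7 := T.d_nonneg A A'
  rcases le_max_iff.1 h with h8 | h8 <;> omega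

lemma pr_shift (T : ZTree V) {φ : ℤ → V} (h : T.IsLine φ) (a : ℤ) (p : V) :
    T.pr (fun k => φ (k + a)) p = T.pr φ p - a := by
  apply (h.shift a).pr_eq
  intro k
  rw [h.pr_spec p (k + a), sub_add_cancel]
  have := abs_nonneg (k + a - T.pr φ p)
  omega

/-- the core of the argument -/
lemma core (hrev : ∀ x ∈ S.fam, ∀ g : Γ, ¬ ∀ k, g • x.1 k = x.1 (-k))
    (htr : ∀ x ∈ S.fam, ∃ τ : Γ, ∀ k, τ • x.1 k = x.1 (k + x.2))
    (p b b' : Γ) (hb : b ≠ 1) (hbv : b • S.v0 = S.v0) (hbv' : b' • S.v0 = S.v0)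
    (hN : p * b * p⁻¹ * b' ∈ S.N)
    (hmin : ∀ n ∈ S.N, S.T.d S.v0 (p • S.v0) ≤ S.T.d S.v0 ((n * p) • S.v0)) :
    p • S.v0 = S.v0 := by
  by_contra hq0
  obtain ⟨q, hq⟩ : ∃ q, q = p • S.v0 := ⟨_, rfl⟩
  obtain ⟨c, hc⟩ : ∃ c, c = p * b * p⁻¹ := ⟨_, rfl⟩
  rw [← hq] at hq0
  have hcq : c • q = q := by
    rw [hc, hq, mul_smul, mul_smul, inv_smul_smul, hbv]
  have hcq' : c⁻¹ • q = q := by
    rw [inv_smul_eq_iff, hcq]
  have hc1 : c ≠ 1 := by
    intro h
    apply hb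
    rw [hc] at h
    have := congrArg (fun g => p⁻¹ * g * p) h
    simpa [mul_assoc] using this
  rw [← hc] at hN
  have hn0 : (c * b') • S.v0 = c • S.v0 := by rw [mul_smul, hbv']
  have hne : c * b' ≠ 1 := by
    intro h
    have h1 : c • S.v0 = S.v0 := by
      rw [← hn0, h, one_smul]
    exact hc1 (S.pfix c S.v0 q (Ne.symm hq0) h1 hcq)
  obtain ⟨x0, hx0, D0, hD0, hKD0, hd0⟩ := S.greendlinger (c * b') hN hne
  rw [hn0] at hd0
  have hl0 := S.line _ hx0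
  -- normalise the line
  obtain ⟨φ, L, hφ, D, hDD, hp0, hpD⟩ : ∃ (φ : ℤ → V) (L : ℤ), (φ, L) ∈ S.fam ∧ ∃ D : ℤ,
      (0 < D ∧ (S.K - 6) * L ≤ S.K * D) ∧ S.T.pr φ S.v0 = 0 ∧ S.T.pr φ (c • S.v0) = D := by
    have e1 := hl0.pr_spec S.v0 0
    have e2 := hl0.pr_spec S.v0 D0
    have e3 := hl0.pr_spec (c • S.v0) 0
    have e4 := hl0.pr_spec (c • S.v0) D0
    have t1 := S.T.tri S.v0 (x0.1 D0) (c • S.v0)
    have t2 := S.T.tri S.v0 (x0.1 0) (c • S.v0)
    have c1 := S.T.d_comm (x0.1 0) (c • S.v0)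
    have c2 := S.T.d_comm (x0.1 D0) (c • S.v0)
    set a := S.T.pr x0.1 S.v0 with ha
    set a' := S.T.pr x0.1 (c • S.v0) with ha'
    have ha0 : a ≤ 0 := by
      have h1 : |0 - a| + D0 ≤ |D0 - a| := by omega
      rcases abs_cases (0 - a) with ⟨q1, _⟩ | ⟨q1, _⟩ <;>
      rcases abs_cases (D0 - a) with ⟨q2, _⟩ | ⟨q2, _⟩ <;> omega
    have ha1 : D0 ≤ a' := by
      have h1 : D0 + |D0 - a'| ≤ |0 - a'| := by omega
      rcases abs_cases (0 - a') with ⟨q1, _⟩ | ⟨q1, _⟩ <;>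
      rcases abs_cases (D0 - a') with ⟨q2, _⟩ | ⟨q2, _⟩ <;> omega
    refine ⟨_, _, S.shift_mem a _ hx0, a' - a, ⟨by omega, ?_⟩, ?_, ?_⟩
    · have hK := S.hK
      nlinarith
    · rw [pr_shift S.T hl0, ← ha, sub_self]
    · rw [pr_shift S.T hl0]
  obtain ⟨hD, hKD⟩ := hDD
  have hK := S.hK
  have hl : S.T.IsLine φ := S.line _ hφ
  have hKL : S.K ≤ L := S.KL _ hφ
  have hL : 0 < L := by omega
  have hd := hl.d_eq S.v0 (c • S.v0) (by rw [hp0, hpD]; omega)
  rw [hp0, hpD] at hd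
  have habsD : |0 - D| = D := by
    rw [zero_sub, abs_neg, abs_of_pos hD]
  rw [habsD] at hd
  -- (a)
  have hcv : S.T.d q (c • S.v0) = S.T.d S.v0 q := by
    conv_lhs => rw [← hcq, S.smul_d]
    exact S.T.d_comm _ _
  have ha : S.T.d S.v0 (c • S.v0) = 2 * S.T.d S.v0 q := by
    by_contra hcon
    have t1 := S.T.tri S.v0 q (c • S.v0)
    have p1 := S.T.par S.v0 q (c • S.v0)
    obtain ⟨e, he⟩ : ∃ e : ℕ, (e : ℤ) = S.T.d S.v0 q - S.T.d S.v0 (c • S.v0) / 2 :=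
      ⟨(S.T.d S.v0 q - S.T.d S.v0 (c • S.v0) / 2).toNat, by omega⟩
    have n1 := S.T.d_nonneg S.v0 (c • S.v0)
    obtain ⟨m, hm1, hm2⟩ := pt S q e (by omega)
    -- the distance of `m` and `c v0`
    have g1 := S.T.four m (c • S.v0) S.v0 q
    have g2 := S.T.tri S.v0 m (c • S.v0)
    have c1 := S.T.d_comm m S.v0
    have c2 := S.T.d_comm (c • S.v0) q
    have c3 := S.T.d_comm (c • S.v0) S.v0
    have g3 : S.T.d m (c • S.v0) = S.T.d S.v0 q - e := by
      rcases le_max_iff.1 g1 with h8 | h8 <;> omega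
    have h1 : S.T.d (c • m) q = e := by
      conv_lhs => rw [← hcq, S.smul_d]
      exact hm2
    have h2 : S.T.d (c • S.v0) (c • m) = S.T.d S.v0 q - e := by
      rw [S.smul_d, hm1]
    have h3 : m = c • m := by
      have c4 : S.T.d (c • S.v0) q = S.T.d S.v0 q := by omega
      have c5 := S.T.d_comm m (c • S.v0)
      exact seg_uniq S.T (c • S.v0) q m (c • m) e (by omega) hm2 (by omega) h1
    have h4 : m ≠ q := by
      intro h
      rw [h, S.T.d_self] at hm2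
      omega
    exact hc1 (S.pfix c m q h4 h3.symm hcq)
  -- (b)
  obtain ⟨r, hr⟩ : ∃ r, r = S.T.pr φ q := ⟨_, rfl⟩
  have hqx := hl.pr_spec q
  rw [← hr] at hqx
  have nq := S.T.d_nonneg q (φ r)
  have cq := S.T.d_comm q (φ r)
  have hrv : r ≠ 0 → S.T.d S.v0 q = S.T.d S.v0 (φ 0) + |r| + S.T.d q (φ r) := by
    intro h
    have h1 := hl.d_eq S.v0 q (by rw [hp0, ← hr]; exact fun h' => h h'.symm)
    rw [hp0, ← hr, zero_sub, abs_neg] at h1
    omega
  have hrc : r ≠ D → S.T.d q (c • S.v0) = S.T.d q (φ r) + |r - D| + S.T.d (φ D) (c • S.v0) := by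
    intro h
    have h1 := hl.d_eq q (c • S.v0) (by rw [hpD, ← hr]; exact h)
    rw [hpD, ← hr] at h1
    exact h1
  have hr0 : 0 ≤ r := by
    by_contra hcon
    have h1 := hrv (by omega)
    have h2 := hrc (by omega)
    rcases abs_cases r with ⟨q1, _⟩ | ⟨q1, _⟩ <;>
      rcases abs_cases (r - D) with ⟨q2, _⟩ | ⟨q2, _⟩ <;> omega
  have hrD : r ≤ D := by
    by_contra hcon
    have h1 := hrv (by omega)
    have h2 := hrc (by omega)
    rcases abs_cases r with ⟨q1, _⟩ | ⟨q1, _⟩ <;>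
      rcases abs_cases (r - D) with ⟨q2, _⟩ | ⟨q2, _⟩ <;> omega
  -- (c)
  have hc2 : 2 * r ≤ L := by
    by_contra hcon
    push Not at hcon
    have hrpos : 0 < r := by omega
    obtain ⟨τ, hτ⟩ := htr _ hφ
    simp only at hτ
    have hτN : τ⁻¹ ∈ S.N := S.N.inv_mem (trans_le_N S hφ ⟨1, fun k => by rw [hτ, one_mul]⟩)
    have h1 := hmin _ hτN
    rw [mul_smul, ← hq] at h1
    have h2 : S.T.d (φ 0) (τ⁻¹ • q) = S.T.d q (φ r) + |L - r| := by
      rw [← S.smul_d τ, smul_inv_smul, hτ, zero_add, S.T.d_comm, hqx]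
    have h3 := S.T.tri S.v0 (φ 0) (τ⁻¹ • q)
    have h4 := hrv (by omega)
    rw [abs_of_pos hrpos] at h4
    rcases abs_cases (L - r) with ⟨q2, _⟩ | ⟨q2, _⟩ <;> omega
  -- (d)
  have hd2 : 2 * (D - r) ≤ L := by
    by_contra hcon
    push Not at hcon
    have hy : ((fun k => c⁻¹ • φ k), L) ∈ S.fam := S.smul_mem c⁻¹ _ hφ
    obtain ⟨τ, hτ⟩ := htr _ hy
    simp only at hτ
    have hτN : τ ∈ S.N := trans_le_N S hy ⟨1, fun k => by simp only; rw [hτ, one_mul]⟩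
    have h1 := hmin _ hτN
    rw [mul_smul, ← hq] at h1
    have hqy : ∀ k, S.T.d q (c⁻¹ • φ k) = S.T.d q (φ k) := by
      intro k
      conv_lhs => rw [← hcq', S.smul_d]
    have hvy : S.T.d S.v0 (c⁻¹ • φ D) = S.T.d (φ D) (c • S.v0) := by
      rw [← S.smul_d c, smul_inv_smul, S.T.d_comm]
    have h2 : S.T.d (c⁻¹ • φ D) (τ • q) = S.T.d q (φ r) + |D - L - r| := by
      have e1 : c⁻¹ • φ D = τ • (c⁻¹ • φ (D - L)) := by
        rw [hτ, sub_add_cancel]
      rw [e1, S.smul_d, S.T.d_comm, hqy, hqx]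
    have h3 := S.T.tri S.v0 (c⁻¹ • φ D) (τ • q)
    have h4 := hrc (by omega)
    rcases abs_cases (D - L - r) with ⟨q2, _⟩ | ⟨q2, _⟩ <;>
      rcases abs_cases (r - D) with ⟨q3, _⟩ | ⟨q3, _⟩ <;> omega
  -- (e)
  have hKr : L ≤ S.K * r := by nlinarith
  have hKr' : L ≤ S.K * (D - r) := by nlinarith
  have hrpos : 0 < r := by
    by_contra hcon
    have : r = 0 := by omega
    rw [this, mul_zero] at hKr
    omega
  have hrpos' : 0 < D - r := by
    by_contra hcon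
    have : D - r = 0 := by omega
    rw [this, mul_zero] at hKr'
    omega
  have k1 := hrv (by omega)
  have k2 := hrc (by omega)
  rw [abs_of_pos hrpos] at k1
  have habs : |r - D| = D - r := by
    rw [abs_sub_comm]
    exact abs_of_pos hrpos'
  rw [habs] at k2
  have hqr : q = φ r := by
    apply S.T.eq_of_zero
    omega
  have hqr0 : S.T.d q (φ r) = 0 := by rw [← hqr, S.T.d_self]
  obtain ⟨s, hs⟩ : ∃ s : ℕ, (s : ℤ) = min r (D - r) := ⟨(min r (D - r)).toNat, by omega⟩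
  have hsr : (s : ℤ) ≤ r := by omega
  have hsr' : (s : ℤ) ≤ D - r := by omega
  have hKs : L ≤ S.K * s := by
    rw [hs]
    rcases min_choice r (D - r) with h | h <;> rw [h]
    · exact hKr
    · exact hKr'
  have hv0 := hl.pr_spec S.v0
  have hvc := hl.pr_spec (c • S.v0)
  rw [hp0] at hv0
  rw [hpD] at hvc
  have hagree : ∀ k : ℕ, k ≤ s → φ (-(k : ℤ) + r) = c⁻¹ • φ (k + r) := by
    intro k hk
    have hk' : (k : ℤ) ≤ s := by exact_mod_cast hk
    apply seg_uniq S.T S.v0 q _ _ k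
    · rw [hv0, k1, hqr0]
      have : |-(k : ℤ) + r - 0| = r - k := by
        rw [abs_of_nonneg (by omega)]
        ring
      rw [this]
      ring
    · rw [S.T.d_comm, hqx, hqr0]
      have : |-(k : ℤ) + r - r| = k := by
        rw [add_sub_cancel_right, abs_neg, Nat.abs_cast]
      rw [this]
      ring
    · rw [← S.smul_d c, smul_inv_smul, hvc]
      have h1 : |(k : ℤ) + r - D| = D - r - k := by
        rw [abs_sub_comm, abs_of_nonneg (by omega)]
        ring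
      have h2 := S.T.d_comm (c • S.v0) (φ D)
      rw [h1, h2]
      omega
    · rw [S.T.d_comm]
      conv_lhs => rw [← hcq', S.smul_d]
      rw [hqx, hqr0]
      have : |(k : ℤ) + r - r| = k := by
        rw [add_sub_cancel_right, Nat.abs_cast]
      rw [this]
      ring
  have hX : ((fun k : ℤ => φ (-k + r)), L) ∈ S.fam := S.rev_mem _ (S.shift_mem r _ hφ)
  have hY : ((fun k : ℤ => c⁻¹ • φ (k + r)), L) ∈ S.fam := S.smul_mem c⁻¹ _ (S.shift_mem r _ hφ)
  have hXY := S.sc _ hX _ hY s (fun k hk => hagree k hk) (Or.inl hKs)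
  have hZ : ((fun k : ℤ => φ (k + r)), L) ∈ S.fam := S.shift_mem r _ hφ
  apply hrev _ hZ c⁻¹
  intro k
  have h1 := congrFun (Prod.ext_iff.1 hXY).1 k
  exact h1.symm

end

/-- **Job MALN.** -/
theorem t : Pool.Agent.H346.QC.S_MALN := by
  intro Γ V _ _ S hrev htr p b b' hb hbv hbv' hN
  -- the minimal choice
  let f : S.N → ℕ := fun n => (S.T.d S.v0 (((n : Γ) * p) • S.v0)).toNat
  obtain ⟨n, hn⟩ : ∃ n : S.N, ∀ m : S.N, f n ≤ f m :=
    ⟨Function.argmin f, fun m => Function.argmin_le f m⟩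
  refine ⟨n, n.2, ?_⟩
  apply core S hrev htr ((n : Γ) * p) b b' hb hbv hbv'
  · have e : (n : Γ) * p * b * ((n : Γ) * p)⁻¹ * b' =
        (n : Γ) * (p * b * p⁻¹ * b') * (b'⁻¹ * (n : Γ)⁻¹ * b'⁻¹⁻¹) := by group
    rw [e]
    exact S.N.mul_mem (S.N.mul_mem n.2 hN) (conj_mem_N S _ (S.N.inv_mem n.2) _)
  · intro m hm
    have h := hn ⟨m * n, S.N.mul_mem hm n.2⟩
    simp only [f] at h
    have h1 := S.T.d_nonneg S.v0 (((n : Γ) * p) • S.v0)
    have h2 := S.T.d_nonneg S.v0 ((m * (n : Γ) * p) • S.v0)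
    rw [← mul_assoc]
    omega

end Pool.Agent.H650.QC

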